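import Pool.Agent.Lib.MP_975a4b_lc.Cube

set_option autoImplicit false

namespace Pool.Agent.Lib.MP_975a4b_lc

open Filter Topology Encodable

lemma CE.proj {O : Set ℕ} {α β γ : Type} [Primcodable α] [Primcodable β] [Primcodable γ]
    {S : Set α} (hS : CE O S) {R : γ → α → Prop} (hR : PrimrecRel R) {π : γ → β}
    (hπ : Primrec π) : CE O {b | ∃ w : γ, ∃ a ∈ S, R w a ∧ π w = b} := by
  classical
  obtain ⟨f, hf, hfS⟩ := hS
  let h : ℕ × α → Option β := fun p =>
    (decode (α := γ) p.1.unpair.2).bind fun w => if R w p.2 then some (π w) else none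
  have hh : Primrec h := by
    refine Primrec.option_bind
      (Primrec.decode.comp (Primrec.snd.comp (Primrec.unpair.comp Primrec.fst))) ?_
    refine Primrec.ite (hR.comp Primrec.snd (Primrec.snd.comp Primrec.fst)) ?_ (Primrec.const _)
    exact Primrec.option_some.comp (hπ.comp Primrec.snd)
  have hh' : Partrec (fun p : ℕ × α => (h p : Part β)) := Computable.ofOption hh.to_comp
  refine ⟨fun n => (f n.unpair.1).bind fun a => (h (n, a) : Part β), ?_, fun b => ?_⟩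
  · have hF : Nat.RecursiveIn _ (fun n => (f n).map encode) :=
      Nat.RecursiveIn.of_eq hf (fun n => by simp)
    have h1 := Nat.RecursiveIn.comp (Nat.Partrec.recursiveIn hh')
      (Nat.RecursiveIn.pair (Nat.Partrec.recursiveIn Nat.Partrec.some)
        (Nat.RecursiveIn.comp hF Nat.RecursiveIn.left))
    refine Nat.RecursiveIn.of_eq h1 fun n => ?_
    ext y
    simp [Seq.seq]
  · simp only [Set.mem_ofPred_eq, Part.mem_bind_iff, Part.mem_ofOption, h, Option.mem_def,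
      Option.bind_eq_some_iff]
    constructor
    · rintro ⟨w, a, ha, hw, rfl⟩
      obtain ⟨n, hn⟩ := (hfS a).mp ha
      exact ⟨Nat.pair n (encode w), a, by simpa using hn, w, by simp, by simp [hw]⟩
    · rintro ⟨n, a, ha, w, -, hw⟩
      refine ⟨w, a, (hfS a).mpr ⟨_, ha⟩, ?_⟩
      split_ifs at hw with h'
      exact ⟨h', Option.some_injective _ hw⟩

/-- Numerator of a coordinate. -/
def num (c : Code) (i : ℕ) : ℕ := (c.1.getD i (0, 0)).1

/-- Denominator of a coordinate. -/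
def den (c : Code) (i : ℕ) : ℕ := max ((c.1.getD i (0, 0)).1 + (c.1.getD i (0, 0)).2) 1

lemma den_pos (c : Code) (i : ℕ) : (0 : ℝ) < den c i := by
  exact_mod_cast lt_max_of_lt_right one_pos

lemma coord_eq (c : Code) (i : ℕ) : coord c i = num c i / den c i := by
  unfold coord num den
  rcases Nat.eq_zero_or_pos ((c.1.getD i (0, 0)).1 + (c.1.getD i (0, 0)).2) with h | h
  · have : (c.1.getD i (0, 0)).1 = 0 := by omega
    rw [this]; simp
  · rw [max_eq_left h]; push_cast; rfl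

/-- Arithmetic form of one half of the disjointness test. -/
def test (i : ℕ) (c c' : Code) : Prop :=
  2 ^ i * ((c.2.1 + 1) * (c'.2.2 + 1) + (c'.2.1 + 1) * (c.2.2 + 1)) * (den c i * den c' i) +
    num c' i * den c i * ((c.2.2 + 1) * (c'.2.2 + 1)) ≤
    num c i * den c' i * ((c.2.2 + 1) * (c'.2.2 + 1))

lemma test_iff (i : ℕ) (c c' : Code) :
    test i c c' ↔ 2 ^ i * (radius c + radius c') ≤ coord c i - coord c' i := by
  rw [coord_eq, coord_eq]
  unfold radius test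
  have h1 := den_pos c i
  have h2 := den_pos c' i
  rw [div_add_div _ _ (by positivity) (by positivity), div_sub_div _ _ h1.ne' h2.ne',
    ← mul_div_assoc, div_le_div_iff₀ (by positivity) (by positivity), ← @Nat.cast_le ℝ]
  push_cast
  constructor <;> intro h <;> nlinarith

lemma FD_iff (k : ℕ) (c c' : Code) :
    FD k c c' ↔ ∃ i ∈ List.range k, test i c c' ∨ test i c' c := by
  unfold FD
  refine exists_congr fun i => and_congr (by simp) ?_
  rw [test_iff, test_iff, le_abs, add_comm (radius c'), neg_sub]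

lemma primrec_getD : Primrec₂ (fun (c : Code) (i : ℕ) => c.1.getD i (0, 0)) :=
  (Primrec.list_getD (0, 0)).comp₂ (Primrec.fst.comp₂ Primrec₂.left) Primrec₂.right

lemma primrec_num : Primrec₂ num := Primrec.fst.comp₂ primrec_getD

lemma primrec_den : Primrec₂ den :=
  Primrec.nat_max.comp₂ (Primrec.nat_add.comp₂ (Primrec.fst.comp₂ primrec_getD)
    (Primrec.snd.comp₂ primrec_getD)) (Primrec₂.const 1)

lemma primrec_test {α : Type} [Primcodable α] {i : α → ℕ} {c c' : α → Code} (hi : Primrec i)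
    (hc : Primrec c) (hc' : Primrec c') : PrimrecPred (fun a => test (i a) (c a) (c' a)) := by
  have hp : Primrec (fun a => 2 ^ i a) :=
    (Primrec₂.unpaired'.mp Nat.Primrec.pow).comp (Primrec.const 2) hi
  have m1 : Primrec (fun a => (c a).2.1 + 1) :=
    Primrec.succ.comp (Primrec.fst.comp (Primrec.snd.comp hc))
  have m2 : Primrec (fun a => (c' a).2.1 + 1) :=
    Primrec.succ.comp (Primrec.fst.comp (Primrec.snd.comp hc'))
  have n1 : Primrec (fun a => (c a).2.2 + 1) :=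
    Primrec.succ.comp (Primrec.snd.comp (Primrec.snd.comp hc))
  have n2 : Primrec (fun a => (c' a).2.2 + 1) :=
    Primrec.succ.comp (Primrec.snd.comp (Primrec.snd.comp hc'))
  have d1 := primrec_den.comp hc hi
  have d2 := primrec_den.comp hc' hi
  have a1 := primrec_num.comp hc hi
  have a2 := primrec_num.comp hc' hi
  have hP := Primrec.nat_mul.comp n1 n2
  exact Primrec.nat_le.comp
    (Primrec.nat_add.comp
      (Primrec.nat_mul.comp (Primrec.nat_mul.comp hp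
        (Primrec.nat_add.comp (Primrec.nat_mul.comp m1 n2) (Primrec.nat_mul.comp m2 n1)))
        (Primrec.nat_mul.comp d1 d2))
      (Primrec.nat_mul.comp (Primrec.nat_mul.comp a2 d1) hP))
    (Primrec.nat_mul.comp (Primrec.nat_mul.comp a1 d2) hP)

lemma primrec_FD : PrimrecPred (fun p : ℕ × Code × Code => FD p.1 p.2.1 p.2.2) := by
  have h1 : PrimrecRel (fun (i : ℕ) (p : Code × Code) => test i p.1 p.2 ∨ test i p.2 p.1) :=
    PrimrecPred.primrecRel (p := fun q : ℕ × Code × Code =>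
        test q.1 q.2.1 q.2.2 ∨ test q.1 q.2.2 q.2.1)
      ((primrec_test Primrec.fst (Primrec.fst.comp Primrec.snd) (Primrec.snd.comp Primrec.snd)).or
        (primrec_test Primrec.fst (Primrec.snd.comp Primrec.snd) (Primrec.fst.comp Primrec.snd)))
  exact (h1.exists_mem_list.comp (Primrec.list_range.comp Primrec.fst) Primrec.snd).of_eq
    fun p => (FD_iff _ _ _).symm

lemma primrec_FD_lists :
    PrimrecPred (fun p : ℕ × List Code × List Code => ∀ c ∈ p.2.1, ∀ c' ∈ p.2.2, FD p.1 c c') := by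
  have h1 : PrimrecRel (fun (c' : Code) (p : ℕ × Code) => FD p.1 p.2 c') :=
    PrimrecPred.primrecRel (p := fun q : Code × ℕ × Code => FD q.2.1 q.2.2 q.1)
      (primrec_FD.comp (f := fun q : Code × ℕ × Code => (q.2.1, q.2.2, q.1))
        (Primrec.pair (Primrec.fst.comp Primrec.snd)
          (Primrec.pair (Primrec.snd.comp Primrec.snd) Primrec.fst)))
  have h2 : PrimrecRel (fun (c : Code) (p : ℕ × List Code) => ∀ c' ∈ p.2, FD p.1 c c') :=
    PrimrecPred.primrecRel (p := fun q : Code × ℕ × List Code => ∀ c' ∈ q.2.2, FD q.2.1 q.1 c')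
      (h1.forall_mem_list.comp (Primrec.snd.comp Primrec.snd)
        (Primrec.pair (Primrec.fst.comp Primrec.snd) Primrec.fst))
  exact h2.forall_mem_list.comp (Primrec.fst.comp Primrec.snd)
    (Primrec.pair Primrec.fst (Primrec.snd.comp Primrec.snd))

/-- Certificates. -/
abbrev Cert : Type := Code × ℕ × List Code × List Code

/-- The decidable check of a certificate against a cover. -/
def check (W : List Code) (P Q : Code) (w : Cert) (L : List Code) : Prop :=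
  L = w.1 :: (W ++ (w.2.2.1 ++ w.2.2.2)) ∧
    ∀ c ∈ P :: w.2.2.1, ∀ c' ∈ Q :: w.2.2.2, FD w.2.1 c c'

lemma primrec_check (W : List Code) (P Q : Code) :
    PrimrecPred (fun q : Cert × List Code => check W P Q q.1 q.2) := by
  have l1 : Primrec (fun q : Cert × List Code => q.1.2.2.1) :=
    Primrec.fst.comp (Primrec.snd.comp (Primrec.snd.comp Primrec.fst))
  have l2 : Primrec (fun q : Cert × List Code => q.1.2.2.2) :=
    Primrec.snd.comp (Primrec.snd.comp (Primrec.snd.comp Primrec.fst))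
  refine PrimrecPred.and (Primrec.eq.comp Primrec.snd
    (Primrec.list_cons.comp (Primrec.fst.comp Primrec.fst)
      (Primrec.list_append.comp (Primrec.const W) (Primrec.list_append.comp l1 l2)))) ?_
  exact primrec_FD_lists.comp
    (f := fun q : Cert × List Code => (q.1.2.1, P :: q.1.2.2.1, Q :: q.1.2.2.2))
    (Primrec.pair (Primrec.fst.comp (Primrec.snd.comp Primrec.fst))
      (Primrec.pair (Primrec.list_cons.comp (Primrec.const P) l1)
        (Primrec.list_cons.comp (Primrec.const Q) l2)))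

/-- Cutting data in a compact space. -/
structure Cut (X : Type) [TopologicalSpace X] where
  C : Set X
  M : Set X
  P : Set X
  Q : Set X
  p : X
  q : X
  hC : IsPreconnected C
  hCc : IsClosed C
  hM : IsClosed M
  hMC : Disjoint M C
  hP : IsOpen P
  hQ : IsOpen Q
  hp : p ∈ P
  hq : q ∈ Q
  hpC : p ∈ C
  hqC : q ∈ C

/-- The open set `B` cuts the space. -/
def Cut.Cuts {X : Type} [TopologicalSpace X] (D : Cut X) (B : Set X) : Prop :=
  ∃ Z₁ Z₂ : Set X, IsClosed Z₁ ∧ IsClosed Z₂ ∧ Disjoint Z₁ Z₂ ∧ D.P ⊆ Z₁ ∧ D.Q ⊆ Z₂ ∧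
    ∀ x, x ∈ B ∨ x ∈ D.M ∨ x ∈ Z₁ ∨ x ∈ Z₂

lemma Cut.exists_codes {X : Type} [TopologicalSpace X] [CompactSpace X] (D : Cut X)
    (φ : X → Cube) (hφ : Continuous φ) (hi : Function.Injective φ) :
    ∃ (W : List Code) (P Q : Code),
      (∀ w L, Set.range φ ⊆ ⋃ c ∈ L, ball c → check W P Q w L →
        (ball w.1 ∩ Set.range φ).Nonempty) ∧
      ∀ B : Code, D.Cuts (φ ⁻¹' ball B) →
        ∃ w L, Set.range φ ⊆ ⋃ c ∈ L, ball c ∧ check W P Q w L ∧ w.1 = B := by
  have hK : ∀ A : Set X, IsClosed A → IsCompact (φ '' A) := fun A hA => hA.isCompact.image hφ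
  obtain ⟨δ₁, hδ₁, k₁, h₁⟩ := exists_sep (hK _ D.hM) (hK _ D.hCc)
    (Set.disjoint_image_of_injective hi D.hMC)
  obtain ⟨W, hW1, hW2⟩ := exists_cover (hK _ D.hM) hδ₁
  have hWC : ∀ c ∈ W, ∀ x ∈ D.C, φ x ∉ ball c := by
    intro c hc x hx hxc
    obtain ⟨hr, y, hy, hyc⟩ := hW2 c hc
    exact ((h₁ y hy _ ⟨x, hx, rfl⟩).fd hyc hxc hr hr).disjoint hyc hyc
  obtain ⟨δ₂, hδ₂, k₂, h₂⟩ := exists_sep (isCompact_singleton (x := φ D.p))
    (hK _ D.hP.isClosed_compl) (by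
      rw [Set.disjoint_singleton_left]
      rintro ⟨x, hx, hx'⟩
      exact hx (hi hx' ▸ D.hp))
  obtain ⟨δ₃, hδ₃, k₃, h₃⟩ := exists_sep (isCompact_singleton (x := φ D.q))
    (hK _ D.hQ.isClosed_compl) (by
      rw [Set.disjoint_singleton_left]
      rintro ⟨x, hx, hx'⟩
      exact hx (hi hx' ▸ D.hq))
  obtain ⟨P, hP1, hP2⟩ := exists_ball (φ D.p) (lt_min hδ₂ hδ₃)
  obtain ⟨Q, hQ1, hQ2⟩ := exists_ball (φ D.q) (lt_min hδ₂ hδ₃)
  refine ⟨W, P, Q, fun w L hL hch => ?_, fun B hB => ?_⟩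
  · by_contra hcon
    obtain ⟨rfl, hfd⟩ := hch
    let U₁ : Set X := φ ⁻¹' ⋃ c ∈ P :: w.2.2.1, ball c
    let U₂ : Set X := φ ⁻¹' ⋃ c ∈ Q :: w.2.2.2, ball c
    have hU₁ : IsOpen U₁ := (isOpen_biUnion fun c _ => isOpen_ball c).preimage hφ
    have hU₂ : IsOpen U₂ := (isOpen_biUnion fun c _ => isOpen_ball c).preimage hφ
    have hcov : D.C ⊆ U₁ ∪ U₂ := by
      intro x hx
      obtain ⟨c, hc, hxc⟩ := Set.mem_iUnion₂.mp (hL ⟨x, rfl⟩)
      rcases List.mem_cons.mp hc with rfl | hc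
      · exact absurd ⟨φ x, hxc, x, rfl⟩ hcon
      rcases List.mem_append.mp hc with hc | hc
      · exact absurd hxc (hWC c hc x hx)
      rcases List.mem_append.mp hc with hc | hc
      · exact Or.inl (Set.mem_iUnion₂.mpr ⟨c, List.mem_cons_of_mem _ hc, hxc⟩)
      · exact Or.inr (Set.mem_iUnion₂.mpr ⟨c, List.mem_cons_of_mem _ hc, hxc⟩)
    obtain ⟨x, -, hx1, hx2⟩ := D.hC U₁ U₂ hU₁ hU₂ hcov
      ⟨D.p, D.hpC, Set.mem_iUnion₂.mpr ⟨P, List.mem_cons_self, hP1⟩⟩
      ⟨D.q, D.hqC, Set.mem_iUnion₂.mpr ⟨Q, List.mem_cons_self, hQ1⟩⟩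
    obtain ⟨c, hc, hxc⟩ := Set.mem_iUnion₂.mp hx1
    obtain ⟨c', hc', hxc'⟩ := Set.mem_iUnion₂.mp hx2
    exact (hfd c hc c' hc').disjoint hxc hxc'
  · obtain ⟨Z₁, Z₂, hZ₁, hZ₂, hdis, hPZ, hQZ, hcov⟩ := hB
    obtain ⟨δ₄, hδ₄, k₄, h₄⟩ := exists_sep (hK _ hZ₁) (hK _ hZ₂)
      (Set.disjoint_image_of_injective hi hdis)
    have hδ : 0 < min (min δ₂ δ₃) δ₄ := lt_min (lt_min hδ₂ hδ₃) hδ₄
    obtain ⟨L₁, hL₁, hL₁'⟩ := exists_cover (hK _ hZ₁) hδ
    obtain ⟨L₂, hL₂, hL₂'⟩ := exists_cover (hK _ hZ₂) hδ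
    refine ⟨(B, k₂ + k₃ + k₄, L₁, L₂), _, ?_, ⟨rfl, ?_⟩, rfl⟩
    · rintro _ ⟨x, rfl⟩
      rcases hcov x with h | h | h | h
      · exact Set.mem_iUnion₂.mpr ⟨B, List.mem_cons_self, h⟩
      · obtain ⟨c, hc, hxc⟩ := Set.mem_iUnion₂.mp (hW1 ⟨x, h, rfl⟩)
        exact Set.mem_iUnion₂.mpr ⟨c, by simp [hc], hxc⟩
      · obtain ⟨c, hc, hxc⟩ := Set.mem_iUnion₂.mp (hL₁ ⟨x, h, rfl⟩)
        exact Set.mem_iUnion₂.mpr ⟨c, by simp [hc], hxc⟩
      · obtain ⟨c, hc, hxc⟩ := Set.mem_iUnion₂.mp (hL₂ ⟨x, h, rfl⟩)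
        exact Set.mem_iUnion₂.mpr ⟨c, by simp [hc], hxc⟩
    · have hnP : ∀ x ∈ Z₂, x ∉ D.P := fun x hx h => Set.disjoint_left.mp hdis (hPZ h) hx
      have hnQ : ∀ x ∈ Z₁, x ∉ D.Q := fun x hx h => Set.disjoint_left.mp hdis hx (hQZ h)
      intro c hc c' hc'
      rcases List.mem_cons.mp hc with rfl | hc
      · rcases List.mem_cons.mp hc' with rfl | hc'
        · exact ((h₂ _ rfl _ ⟨D.q, hnP _ (hQZ D.hq), rfl⟩).mono (min_le_left δ₂ δ₃)
            (by simp only; omega)).fd hP1 hQ1 hP2 hQ2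
        · obtain ⟨hr, _, ⟨y, hy, rfl⟩, hyc⟩ := hL₂' c' hc'
          exact ((h₂ _ rfl _ ⟨y, hnP y hy, rfl⟩).mono (min_le_left δ₂ δ₃)
            (by simp only; omega)).fd hP1 hyc hP2 (hr.trans (min_le_left _ _))
      · obtain ⟨hr, _, ⟨y, hy, rfl⟩, hyc⟩ := hL₁' c hc
        rcases List.mem_cons.mp hc' with rfl | hc'
        · exact ((h₃ _ rfl _ ⟨y, hnQ y hy, rfl⟩).symm.mono (min_le_right δ₂ δ₃)
            (by simp only; omega)).fd hyc hQ1 (hr.trans (min_le_left _ _)) hQ2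
        · obtain ⟨hr', _, ⟨z, hz, rfl⟩, hzc⟩ := hL₂' c' hc'
          exact ((h₄ _ ⟨y, hy, rfl⟩ _ ⟨z, hz, rfl⟩).mono (min_le_right (min δ₂ δ₃) δ₄)
            (by simp only; omega)).fd hyc hzc hr hr'

theorem strong_of_cuts {X : Type} [TopologicalSpace X] [CompactSpace X] (D₁ D₂ : Cut X)
    (h : ∀ B : Set X, IsOpen B → B.Nonempty → D₁.Cuts B ∨ D₂.Cuts B) :
    StrongComputableType X := by
  rintro O Y ⟨e⟩ hY
  let φ : X → Cube := fun x => (e.symm x).1
  have hφ : Continuous φ := continuous_subtype_val.comp e.symm.continuous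
  have hi : Function.Injective φ := Subtype.val_injective.comp e.symm.injective
  have hr : Set.range φ = Y := by
    ext y
    constructor
    · rintro ⟨x, rfl⟩; exact (e.symm x).2
    · intro hy; exact ⟨e ⟨y, hy⟩, by simp [φ]⟩
  obtain ⟨W₁, P₁, Q₁, s₁, c₁⟩ := D₁.exists_codes φ hφ hi
  obtain ⟨W₂, P₂, Q₂, s₂, c₂⟩ := D₂.exists_codes φ hφ hi
  rw [hr] at s₁ c₁ s₂ c₂
  refine ⟨hY, ?_⟩
  have hR : PrimrecRel (fun (w : Cert) (L : List Code) =>
      check W₁ P₁ Q₁ w L ∨ check W₂ P₂ Q₂ w L) :=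
    PrimrecPred.primrecRel (p := fun q : Cert × List Code =>
        check W₁ P₁ Q₁ q.1 q.2 ∨ check W₂ P₂ Q₂ q.1 q.2)
      ((primrec_check W₁ P₁ Q₁).or (primrec_check W₂ P₂ Q₂))
  have := CE.proj hY hR (π := fun w : Cert => w.1) Primrec.fst
  convert this using 1
  ext B
  constructor
  · rintro ⟨y, hyB, hy⟩
    rw [← hr] at hy
    obtain ⟨x, rfl⟩ := hy
    rcases h (φ ⁻¹' ball B) ((isOpen_ball B).preimage hφ) ⟨x, hyB⟩ with h | h
    · obtain ⟨w, L, h1, h2, h3⟩ := c₁ B h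
      exact ⟨w, L, h1, Or.inl h2, h3⟩
    · obtain ⟨w, L, h1, h2, h3⟩ := c₂ B h
      exact ⟨w, L, h1, Or.inr h2, h3⟩
  · rintro ⟨w, L, h1, h2 | h2, rfl⟩
    · exact s₁ w L h1 h2
    · exact s₂ w L h1 h2

end Pool.Agent.Lib.MP_975a4b_lc
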