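import Pool.Agent.Lib.MP_975a4b_lc.Defs

set_option autoImplicit false

namespace Pool.Agent.Lib.MP_975a4b_lc

open Filter Topology

lemma coord_mem (c : Code) (i : ℕ) : 0 ≤ coord c i ∧ coord c i ≤ 1 := by
  unfold coord
  refine ⟨by positivity, div_le_one_of_le₀ ?_ (by positivity)⟩
  have : (0 : ℝ) ≤ ((c.1.getD i (0, 0)).2 : ℝ) := by positivity
  linarith

lemma radius_pos (c : Code) : 0 < radius c := by unfold radius; positivity

lemma abs_sub_coord_le (c : Code) (x : Cube) (n : ℕ) : |(x n : ℝ) - coord c n| ≤ 1 := by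
  have h1 := coord_mem c n
  have h2 := (x n).2
  rw [abs_le]
  constructor <;> linarith [h1.1, h1.2, h2.1, h2.2]

lemma term_le (c : Code) (x : Cube) (n : ℕ) :
    ‖(1 / 2 : ℝ) ^ n * |(x n : ℝ) - coord c n|‖ ≤ (1 / 2 : ℝ) ^ n := by
  rw [Real.norm_eq_abs, abs_of_nonneg (by positivity)]
  exact mul_le_of_le_one_right (by positivity) (abs_sub_coord_le c x n)

lemma summable_term (c : Code) (x : Cube) :
    Summable (fun n : ℕ => (1 / 2 : ℝ) ^ n * |(x n : ℝ) - coord c n|) :=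
  Summable.of_norm_bounded summable_geometric_two (term_le c x)

lemma isOpen_ball (c : Code) : IsOpen (ball c) := by
  refine isOpen_lt ?_ continuous_const
  refine continuous_tsum (fun n => ?_) summable_geometric_two (fun n x => term_le c x n)
  fun_prop

lemma abs_lt_of_mem_ball {c : Code} {x : Cube} (h : x ∈ ball c) (i : ℕ) :
    |(x i : ℝ) - coord c i| < 2 ^ i * radius c := by
  have h1 := (summable_term c x).le_tsum i (fun j _ => by positivity)
  have h2 : (1 / 2 : ℝ) ^ i * |(x i : ℝ) - coord c i| < radius c := h1.trans_lt h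
  have h3 : (2 : ℝ) ^ i * (1 / 2) ^ i = 1 := by rw [← mul_pow]; norm_num
  calc _ = 2 ^ i * ((1 / 2 : ℝ) ^ i * |(x i : ℝ) - coord c i|) := by
        rw [← mul_assoc, h3, one_mul]
    _ < _ := mul_lt_mul_of_pos_left h2 (by positivity)

lemma exists_ball (x : Cube) {δ : ℝ} (hδ : 0 < δ) : ∃ c : Code, x ∈ ball c ∧ radius c ≤ δ := by
  obtain ⟨m, hm⟩ := exists_nat_one_div_lt hδ
  have hr : (0 : ℝ) < 1 / ((m : ℝ) + 1) := by positivity
  obtain ⟨k, hk⟩ := exists_pow_lt_of_lt_one (show 0 < 1 / ((m : ℝ) + 1) / 4 by positivity)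
    (show (1 / 2 : ℝ) < 1 by norm_num)
  obtain ⟨N, hN⟩ := exists_nat_one_div_lt (show 0 < 1 / ((m : ℝ) + 1) / 4 by positivity)
  let a : ℕ → ℕ := fun i => ⌊(x i : ℝ) * (N + 1)⌋₊
  have ha : ∀ i, a i ≤ N + 1 := fun i => by
    refine Nat.floor_le_of_le ?_
    have := (x i).2.2
    push_cast
    nlinarith [(x i).2.1, (Nat.cast_nonneg N : (0 : ℝ) ≤ N)]
  let c : Code := ((List.range k).map (fun i => (a i, N + 1 - a i)), 0, m)
  have hrad : radius c = 1 / ((m : ℝ) + 1) := by simp [radius, c]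
  have hco : ∀ i < k, |(x i : ℝ) - coord c i| ≤ 1 / ((N : ℝ) + 1) := by
    intro i hi
    have h1 : c.1.getD i (0, 0) = (a i, N + 1 - a i) := by
      simp [c, List.getD, hi]
    have h2 : coord c i = a i / (N + 1) := by
      unfold coord
      rw [h1]
      simp only
      rw [Nat.cast_sub (ha i)]
      push_cast
      congr 1
      ring
    have h3 : (a i : ℝ) ≤ x i * (N + 1) := Nat.floor_le (mul_nonneg (x i).2.1 (by positivity))
    have h4 : (x i : ℝ) * (N + 1) < a i + 1 := Nat.lt_floor_add_one _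
    have hN0 : (0 : ℝ) < N + 1 := by positivity
    rw [h2, show (x i : ℝ) - a i / (N + 1) = (x i * (N + 1) - a i) / (N + 1) by field_simp,
      abs_div, abs_of_pos hN0, abs_of_nonneg (by linarith)]
    exact div_le_div_of_nonneg_right (by linarith) hN0.le
  refine ⟨c, ?_, by rw [hrad]; exact hm.le⟩
  change ∑' n : ℕ, (1 / 2 : ℝ) ^ n * |(x n : ℝ) - coord c n| < radius c
  rw [hrad, ← (summable_term c x).sum_add_tsum_nat_add k]
  have h1 : ∑ i ∈ Finset.range k, (1 / 2 : ℝ) ^ i * |(x i : ℝ) - coord c i| ≤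
      2 * (1 / ((N : ℝ) + 1)) := by
    calc _ ≤ ∑ i ∈ Finset.range k, (1 / 2 : ℝ) ^ i * (1 / ((N : ℝ) + 1)) :=
          Finset.sum_le_sum fun i hi =>
            mul_le_mul_of_nonneg_left (hco i (Finset.mem_range.mp hi)) (by positivity)
      _ = (∑ i ∈ Finset.range k, (1 / 2 : ℝ) ^ i) * (1 / ((N : ℝ) + 1)) := by
          rw [Finset.sum_mul]
      _ ≤ _ := mul_le_mul_of_nonneg_right (sum_geometric_two_le k) (by positivity)
  have h2 : ∑' i : ℕ, (1 / 2 : ℝ) ^ (i + k) * |(x (i + k) : ℝ) - coord c (i + k)| ≤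
      (1 / 2 : ℝ) ^ k * 2 := by
    have hs : HasSum (fun i : ℕ => (1 / 2 : ℝ) ^ k * (1 / 2 : ℝ) ^ i) ((1 / 2 : ℝ) ^ k * 2) :=
      hasSum_geometric_two.mul_left _
    refine hasSum_le (fun i => ?_) ((summable_nat_add_iff k).mpr (summable_term c x)).hasSum hs
    rw [← pow_add, add_comm k i]
    exact mul_le_of_le_one_right (by positivity) (abs_sub_coord_le c x _)
  linarith

/-- Uniform separation of two points. -/
def Sep (δ : ℝ) (k : ℕ) (x y : Cube) : Prop := ∃ i < k, 2 ^ i * (4 * δ) < |(x i : ℝ) - y i|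

/-- Formal disjointness of two balls. -/
def FD (k : ℕ) (c c' : Code) : Prop :=
  ∃ i < k, 2 ^ i * (radius c + radius c') ≤ |coord c i - coord c' i|

lemma FD.disjoint {k : ℕ} {c c' : Code} (h : FD k c c') {x : Cube} (hx : x ∈ ball c)
    (hx' : x ∈ ball c') : False := by
  obtain ⟨i, -, hi⟩ := h
  have h1 := abs_lt.mp (abs_lt_of_mem_ball hx i)
  have h2 := abs_lt.mp (abs_lt_of_mem_ball hx' i)
  have : |coord c i - coord c' i| < 2 ^ i * (radius c + radius c') := by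
    rw [abs_lt]; constructor <;> linarith
  linarith

lemma Sep.fd {δ : ℝ} {k : ℕ} {x y : Cube} (h : Sep δ k x y) {c c' : Code} (hx : x ∈ ball c)
    (hy : y ∈ ball c') (hc : radius c ≤ δ) (hc' : radius c' ≤ δ) : FD k c c' := by
  obtain ⟨i, hik, hi⟩ := h
  refine ⟨i, hik, ?_⟩
  have h1 := abs_lt.mp (abs_lt_of_mem_ball hx i)
  have h2 := abs_lt.mp (abs_lt_of_mem_ball hy i)
  have h3 : (2 : ℝ) ^ i * radius c ≤ 2 ^ i * δ := mul_le_mul_of_nonneg_left hc (by positivity)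
  have h4 : (2 : ℝ) ^ i * radius c' ≤ 2 ^ i * δ := mul_le_mul_of_nonneg_left hc' (by positivity)
  have h5 := le_abs_self (coord c i - coord c' i)
  have h6 := neg_abs_le (coord c i - coord c' i)
  rcases lt_abs.mp hi with h | h <;> linarith

lemma Sep.mono {δ δ' : ℝ} {k k' : ℕ} {x y : Cube} (h : Sep δ k x y) (h1 : δ' ≤ δ) (h2 : k ≤ k') :
    Sep δ' k' x y := by
  obtain ⟨i, hik, hi⟩ := h
  refine ⟨i, hik.trans_le h2, lt_of_le_of_lt ?_ hi⟩
  exact mul_le_mul_of_nonneg_left (by linarith) (by positivity)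

lemma Sep.symm {δ : ℝ} {k : ℕ} {x y : Cube} (h : Sep δ k x y) : Sep δ k y x := by
  obtain ⟨i, hik, hi⟩ := h
  exact ⟨i, hik, by rwa [abs_sub_comm]⟩

lemma exists_sep {A B : Set Cube} (hA : IsCompact A) (hB : IsCompact B) (h : Disjoint A B) :
    ∃ δ > 0, ∃ k : ℕ, ∀ x ∈ A, ∀ y ∈ B, Sep δ k x y := by
  let W : ℕ → Set (Cube × Cube) := fun n => {p | Sep (1 / ((n : ℝ) + 1)) n p.1 p.2}
  have hWo : ∀ n, IsOpen (W n) := by
    intro n
    have : W n = ⋃ i ∈ {i | i < n}, {p : Cube × Cube |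
        2 ^ i * (4 * (1 / ((n : ℝ) + 1))) < |(p.1 i : ℝ) - p.2 i|} := by
      ext p; simp [W, Sep]
    rw [this]
    exact isOpen_biUnion fun i _ => isOpen_lt continuous_const (by fun_prop)
  have hmono : Monotone W := fun m n hmn p hp =>
    Sep.mono hp (Nat.one_div_le_one_div hmn) hmn
  have hcov : A ×ˢ B ⊆ ⋃ n, W n := by
    rintro ⟨x, y⟩ ⟨hx, hy⟩
    have hne : x ≠ y := fun e => Set.disjoint_left.mp h hx (e ▸ hy)
    obtain ⟨i, hi⟩ := Function.ne_iff.mp hne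
    have h1 : 0 < |(x i : ℝ) - y i| := abs_pos.mpr (sub_ne_zero.mpr fun e => hi (Subtype.ext e))
    obtain ⟨m, hm⟩ := exists_nat_one_div_lt (show 0 < |(x i : ℝ) - y i| / (2 ^ i * 4) by positivity)
    refine Set.mem_iUnion.mpr ⟨m + i + 1, ?_⟩
    have : Sep (1 / ((m : ℝ) + 1)) (i + 1) x y := by
      refine ⟨i, by omega, ?_⟩
      rw [lt_div_iff₀ (by positivity)] at hm
      linarith
    exact this.mono (Nat.one_div_le_one_div (by omega)) (by omega)
  obtain ⟨n, hn⟩ := (hA.prod hB).elim_directed_cover W hWo hcov hmono.directed_le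
  exact ⟨1 / ((n : ℝ) + 1), by positivity, n, fun x hx y hy => hn (Set.mk_mem_prod hx hy)⟩

lemma exists_cover {A : Set Cube} (hA : IsCompact A) {δ : ℝ} (hδ : 0 < δ) :
    ∃ L : List Code, A ⊆ ⋃ c ∈ L, ball c ∧ ∀ c ∈ L, radius c ≤ δ ∧ ∃ x ∈ A, x ∈ ball c := by
  classical
  choose c hc1 hc2 using fun x : Cube => exists_ball x hδ
  obtain ⟨t, ht1, ht2⟩ := hA.elim_nhds_subcover (fun x => ball (c x))
    (fun x _ => (isOpen_ball _).mem_nhds (hc1 x))
  refine ⟨t.toList.map c, fun x hx => ?_, fun d hd => ?_⟩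
  · obtain ⟨y, hy, hxy⟩ := Set.mem_iUnion₂.mp (ht2 hx)
    exact Set.mem_iUnion₂.mpr ⟨c y, List.mem_map.mpr ⟨y, Finset.mem_toList.mpr hy, rfl⟩, hxy⟩
  · obtain ⟨y, hy, rfl⟩ := List.mem_map.mp hd
    exact ⟨hc2 y, y, ht1 y (Finset.mem_toList.mp hy), hc1 y⟩

end Pool.Agent.Lib.MP_975a4b_lc
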