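import Mathlib

set_option autoImplicit false

namespace Pool.Agent.Lib.MP_975a4b_lc

/-- The Hilbert cube, with the product topology. -/
abbrev Cube : Type := ℕ → unitInterval

/-- Codes of rational open balls: a finite list of pairs for the coordinates of the centre, and
two numbers for the radius. -/
abbrev Code : Type := List (ℕ × ℕ) × ℕ × ℕ

/-- The `i`-th coordinate `a / (a + b)` of the centre, where `(a, b)` is the `i`-th pair of the
list (it is `0` if `a = b = 0` or beyond the end of the list). -/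
noncomputable def coord (c : Code) (i : ℕ) : ℝ :=
  ((c.1.getD i (0, 0)).1 : ℝ) / (((c.1.getD i (0, 0)).1 : ℝ) + ((c.1.getD i (0, 0)).2 : ℝ))

/-- The radius `(m + 1) / (n + 1)`. -/
noncomputable def radius (c : Code) : ℝ := ((c.2.1 : ℝ) + 1) / ((c.2.2 : ℝ) + 1)

/-- The rational open ball with code `c` for the metric `∑ 2 ^ (-n) |x n - y n|`. -/
def ball (c : Code) : Set Cube :=
  {x | ∑' n : ℕ, (1 / 2 : ℝ) ^ n * |(x n : ℝ) - coord c n| < radius c}

/-- `S` is computably enumerable relative to the oracle `O`: it is the range of a function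
that is recursive in the characteristic function of `O` (and may be undefined at some inputs). -/
def CE (O : Set ℕ) {α : Type} [Primcodable α] (S : Set α) : Prop :=
  ∃ f : ℕ →. α, RecursiveIn {fun n : ℕ => Part.some (O.indicator (fun _ => 1) n)} f ∧
    ∀ a, a ∈ S ↔ ∃ n, a ∈ f n

/-- Semicomputable relative to `O`. -/
def Semicomputable (O : Set ℕ) (Y : Set Cube) : Prop :=
  CE O {L : List Code | Y ⊆ ⋃ c ∈ L, ball c}

/-- Computable relative to `O`. -/
def ComputableSet (O : Set ℕ) (Y : Set Cube) : Prop :=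
  Semicomputable O Y ∧ CE O {c : Code | (ball c ∩ Y).Nonempty}

/-- Strong computable type. -/
def StrongComputableType (X : Type) [TopologicalSpace X] : Prop :=
  ∀ (O : Set ℕ) (Y : Set Cube), Nonempty (Y ≃ₜ X) → Semicomputable O Y → ComputableSet O Y

/-- Covering dimension at most `n`: every finite open cover has a finite open refinement
in which every point belongs to at most `n + 1` members. -/
def CovDimLE (X : Type) [TopologicalSpace X] (n : ℕ) : Prop :=
  ∀ 𝓤 : Set (Set X), 𝓤.Finite → (∀ U ∈ 𝓤, IsOpen U) → (∀ x, ∃ U ∈ 𝓤, x ∈ U) →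
    ∃ 𝓥 : Set (Set X), 𝓥.Finite ∧ (∀ V ∈ 𝓥, IsOpen V ∧ ∃ U ∈ 𝓤, V ⊆ U) ∧
      (∀ x, ∃ V ∈ 𝓥, x ∈ V) ∧ ∀ x, {V | V ∈ 𝓥 ∧ x ∈ V}.ncard ≤ n + 1

end Pool.Agent.Lib.MP_975a4b_lc
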