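import Pool.Agent.Lib.MP_975a4b_lc.Comp

set_option autoImplicit false

namespace Pool.Agent.Lib.MP_975a4b_lc

open Filter Topology Set

/-- The alphabet: the Cantor set. -/
abbrev Alph : Type := ℕ → Bool

/-- Bi-infinite words. -/
abbrev Word : Type := ℤ → Alph

/-- Prepending `false`. -/
def iota (a : Alph) : Alph := fun n => Nat.casesOn n false a

lemma iota_zero (a : Alph) : iota a 0 = false := rfl

lemma iota_injective : Function.Injective iota := fun _ _ h =>
  funext fun n => congrFun h (n + 1)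

lemma continuous_iota : Continuous iota := by
  refine continuous_pi fun n => ?_
  cases n with
  | zero => exact continuous_const
  | succ n => exact continuous_apply n

lemma exists_iota {a : Alph} (h : a 0 = false) : iota (fun n => a (n + 1)) = a := by
  funext n
  cases n with
  | zero => exact h.symm
  | succ n => rfl

/-- The shift. -/
def sh (n : ℤ) (s : Word) : Word := fun j => s (j + n)

lemma sh_zero (s : Word) : sh 0 s = s := by funext j; simp [sh]

lemma sh_add (m n : ℤ) (s : Word) : sh (m + n) s = sh m (sh n s) := by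
  funext j; simp [sh, add_assoc]

lemma continuous_sh (n : ℤ) : Continuous (sh n) := continuous_pi fun j => continuous_apply (j + n)

/-- A dense sequence of words in which every term is repeated infinitely often. -/
noncomputable def yy (k : ℕ) : Word := TopologicalSpace.denseSeq Word k.unpair.1

/-- The marked word. -/
noncomputable def x0 : Word := fun n =>
  if n = 0 then fun _ => true
  else if 0 < n then iota (yy n.toNat.sqrt (n - (n.toNat.sqrt : ℤ) ^ 2 - n.toNat.sqrt))
  else iota (fun _ => false)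

lemma x0_true_iff (n : ℤ) : x0 n 0 = true ↔ n = 0 := by
  unfold x0
  split_ifs with h1 h2 <;> simp [h1, iota_zero]

lemma x0_neg {n : ℤ} (h : n < 0) : x0 n = iota (fun _ => false) := by
  unfold x0
  rw [if_neg h.ne, if_neg (not_lt.mpr h.le)]

lemma x0_block {k : ℕ} (hk : 0 < k) {j : ℤ} (hj : |j| ≤ k) :
    x0 (j + ((k : ℤ) ^ 2 + k)) = iota (yy k j) := by
  have hj' := abs_le.mp hj
  have hk' : (0 : ℤ) < k := by exact_mod_cast hk
  have hpos : 0 < j + ((k : ℤ) ^ 2 + k) := by nlinarith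
  obtain ⟨a, ha⟩ : ∃ a : ℕ, (a : ℤ) = j + k := ⟨(j + k).toNat, Int.toNat_of_nonneg (by omega)⟩
  have h1 : (j + ((k : ℤ) ^ 2 + k)).toNat = k * k + a := by
    have : j + ((k : ℤ) ^ 2 + k) = ((k * k + a : ℕ) : ℤ) := by push_cast; rw [ha]; ring
    rw [this, Int.toNat_natCast]
  have h2 : (k * k + a).sqrt = k := Nat.sqrt_add_eq k (by omega)
  unfold x0
  rw [if_neg hpos.ne', if_pos hpos, h1, h2]
  congr 2
  ring

/-- The subshift. -/
def SS : Set Word := {s | ∀ j, s j 0 = false} ∪ range (fun n => sh n x0)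

lemma eq_of_true {s : Word} (hs : s ∈ SS) {j : ℤ} (h : s j 0 = true) : s = sh (-j) x0 := by
  rcases hs with hs | ⟨n, rfl⟩
  · rw [hs j] at h; exact absurd h (by simp)
  · have : j + n = 0 := (x0_true_iff _).mp h
    rw [show n = -j by omega]

lemma isClosed_SS : IsClosed SS := by
  rw [← isOpen_compl_iff, isOpen_iff_mem_nhds]
  intro s hs
  have h1 : ∃ j, s j 0 = true := by
    by_contra h
    push Not at h
    exact hs (Or.inl fun j => by simpa using h j)
  obtain ⟨j, hj⟩ := h1
  have h2 : s ≠ sh (-j) x0 := fun h => hs (Or.inr ⟨-j, h.symm⟩)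
  have h3 : IsOpen {s' : Word | s' j 0 = true} :=
    (isOpen_discrete {true}).preimage (f := fun s' : Word => s' j 0) (by fun_prop)
  filter_upwards [h3.mem_nhds hj, isOpen_ne.mem_nhds h2] with s' h4 h5 h6
  exact h5 (eq_of_true h6 h4)

lemma sh_mem (n : ℤ) {s : Word} (hs : s ∈ SS) : sh n s ∈ SS := by
  rcases hs with hs | ⟨m, rfl⟩
  · exact Or.inl fun j => hs _
  · exact Or.inr ⟨n + m, sh_add n m x0⟩

instance : CompactSpace SS := isCompact_iff_compactSpace.mp isClosed_SS.isCompact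

/-- The shift on the subshift. -/
def shS (n : ℤ) (s : SS) : SS := ⟨sh n s.1, sh_mem n s.2⟩

lemma continuous_shS (n : ℤ) : Continuous (shS n) :=
  ((continuous_sh n).comp continuous_subtype_val).subtype_mk _

/-- The total space. -/
def Tot : Type := SS × ℝ

instance : TopologicalSpace Tot := inferInstanceAs (TopologicalSpace (SS × ℝ))
instance : T2Space Tot := inferInstanceAs (T2Space (SS × ℝ))
instance : LocallyCompactSpace Tot := inferInstanceAs (LocallyCompactSpace (SS × ℝ))
instance : SecondCountableTopology Tot := inferInstanceAs (SecondCountableTopology (SS × ℝ))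

noncomputable instance : AddAction ℤ Tot where
  vadd n p := (shS n p.1, p.2 - n)
  zero_vadd p := Prod.ext (Subtype.ext (sh_zero _)) (by
    change p.2 - ((0 : ℤ) : ℝ) = p.2
    simp)
  add_vadd m n p := Prod.ext (Subtype.ext (sh_add _ _ _)) (by
    change p.2 - ((m + n : ℤ) : ℝ) = p.2 - n - m
    push_cast; ring)

lemma vadd_def (n : ℤ) (p : Tot) : n +ᵥ p = (shS n p.1, p.2 - n) := rfl

instance : ContinuousConstVAdd ℤ Tot where
  continuous_const_vadd n :=
    ((continuous_shS n).comp continuous_fst).prodMk (continuous_snd.sub continuous_const)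

instance : ProperlyDiscontinuousVAdd ℤ Tot where
  finite_disjoint_inter_image := by
    intro K L hK hL
    obtain ⟨a, ha⟩ := (hK.image (f := fun p : Tot => p.2) continuous_snd).isBounded.exists_norm_le
    obtain ⟨b, hb⟩ := (hL.image (f := fun p : Tot => p.2) continuous_snd).isBounded.exists_norm_le
    refine (Set.finite_Icc (-⌈a + b⌉) ⌈a + b⌉).subset ?_
    rintro n ⟨_, ⟨p, hp, rfl⟩, hp'⟩
    have h1 := abs_le.mp (ha _ ⟨p, hp, rfl⟩)
    have h2 : |p.2 - n| ≤ b := hb _ ⟨_, hp', rfl⟩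
    have h3 := abs_le.mp h2
    have h4 := Int.le_ceil (a + b)
    constructor
    · have : ((-⌈a + b⌉ : ℤ) : ℝ) ≤ n := by push_cast; linarith [h1.1, h3.2]
      exact_mod_cast this
    · have : (n : ℝ) ≤ (⌈a + b⌉ : ℤ) := by linarith [h1.2, h3.1]
      exact_mod_cast this

/-- The suspension. -/
def XX : Type := Quotient (AddAction.orbitRel ℤ Tot)

instance : TopologicalSpace XX :=
  inferInstanceAs (TopologicalSpace (Quotient (AddAction.orbitRel ℤ Tot)))
instance : T2Space XX := inferInstanceAs (T2Space (Quotient (AddAction.orbitRel ℤ Tot)))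
instance : SecondCountableTopology XX := ContinuousConstVAdd.secondCountableTopology

/-- The projection. -/
noncomputable def pr (p : SS × ℝ) : XX := Quotient.mk (AddAction.orbitRel ℤ Tot) p

lemma pr_oq : IsOpenQuotientMap pr := AddAction.isOpenQuotientMap_quotientMk (Γ := ℤ) (T := Tot)

lemma continuous_pr : Continuous pr := pr_oq.continuous

lemma pr_eq_iff {p q : SS × ℝ} : pr p = pr q ↔ ∃ n : ℤ, (shS n q.1, q.2 - n) = p :=
  Quotient.eq.trans Iff.rfl

lemma pr_sh (n : ℤ) (s : SS) (t : ℝ) : pr (shS n s, t) = pr (s, t + n) :=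
  pr_eq_iff.mpr ⟨n, by simp⟩

lemma exists_rep (x : XX) : ∃ s : SS, ∃ t ∈ Ico (0 : ℝ) 1, pr (s, t) = x := by
  obtain ⟨⟨s, t⟩, rfl⟩ := pr_oq.surjective x
  refine ⟨shS ⌊t⌋ s, Int.fract t, ⟨Int.fract_nonneg t, Int.fract_lt_one t⟩, ?_⟩
  rw [pr_sh, Int.fract_add_floor]

instance : CompactSpace XX := by
  refine ⟨?_⟩
  have h := (isCompact_univ.prod (isCompact_Icc (a := (0 : ℝ)) (b := 1))).image continuous_pr
  refine h.of_isClosed_subset isClosed_univ fun x _ => ?_
  obtain ⟨s, t, ht, rfl⟩ := exists_rep x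
  exact ⟨(s, t), ⟨trivial, ht.1, ht.2.le⟩, rfl⟩

/-- The marked point of the subshift. -/
noncomputable def x1 : SS := ⟨x0, Or.inr ⟨0, sh_zero _⟩⟩

/-- The dense line. -/
noncomputable def hh (t : ℝ) : XX := pr (x1, t)

lemma continuous_hh : Continuous hh := continuous_pr.comp (by fun_prop)

lemma hh_injective : Function.Injective hh := by
  intro s t h
  obtain ⟨n, hn⟩ := pr_eq_iff.mp h
  have h1 : sh n x0 = x0 := congrArg (fun p : SS × ℝ => p.1.1) hn
  have h2 : t - n = s := congrArg Prod.snd hn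
  have h3 : x0 (0 + n) 0 = true := by
    have := congrFun (congrFun h1 0) 0
    rw [(x0_true_iff 0).mpr rfl] at this
    exact this
  have h4 : n = 0 := by simpa using (x0_true_iff _).mp h3
  rw [← h2, h4]; simp

lemma isOpen_x1 : IsOpen ({x1} : Set SS) := by
  have h3 : IsOpen {s' : SS | s'.1 0 0 = true} :=
    (isOpen_discrete {true}).preimage (f := fun s' : SS => s'.1 0 0)
      ((continuous_apply 0).comp ((continuous_apply 0).comp continuous_subtype_val))
  convert h3 using 1
  ext s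
  constructor
  · rintro rfl; exact (x0_true_iff 0).mpr rfl
  · intro h
    have := eq_of_true s.2 h
    rw [neg_zero, sh_zero] at this
    exact Subtype.ext this

lemma isOpen_hh {I : Set ℝ} (hI : IsOpen I) : IsOpen (hh '' I) := by
  have := pr_oq.isOpenMap _ (isOpen_x1.prod hI)
  convert this using 1
  ext x
  constructor
  · rintro ⟨t, ht, rfl⟩; exact ⟨(x1, t), ⟨rfl, ht⟩, rfl⟩
  · rintro ⟨⟨s, t⟩, ⟨hs, ht⟩, rfl⟩
    obtain rfl : s = x1 := hs
    exact ⟨t, ht, rfl⟩

lemma mem_closure_Ici {s : SS} (hs : ∀ j, s.1 j 0 = false) (t b : ℝ) :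
    pr (s, t) ∈ closure (hh '' Ici b) := by
  let s' : Word := fun j n => s.1 j (n + 1)
  have h1 : s' ∈ closure (range (TopologicalSpace.denseSeq Word)) :=
    TopologicalSpace.denseRange_denseSeq Word s'
  obtain ⟨u, hu, hlim⟩ := mem_closure_iff_seq_limit.mp h1
  choose a ha using hu
  let k : ℕ → ℕ := fun i => Nat.pair (a i) i
  have hk : ∀ i, i ≤ k i := fun i => Nat.right_le_pair _ _
  have hy : ∀ i, yy (k i) = u i := fun i => by simp [yy, k, ha]
  have h2 : Tendsto (fun i => shS ((k i : ℤ) ^ 2 + k i) x1) atTop (𝓝 s) := by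
    rw [tendsto_subtype_rng, tendsto_pi_nhds]
    intro j
    have h3 : Tendsto (fun i => iota (u i j)) atTop (𝓝 (iota (s' j))) :=
      (continuous_iota.tendsto _).comp (tendsto_pi_nhds.mp hlim j)
    rw [exists_iota (hs j)] at h3
    refine h3.congr' ?_
    filter_upwards [eventually_ge_atTop (j.natAbs + 1)] with i hi
    have h4 := hk i
    rw [← hy]
    refine (x0_block (by omega) ?_).symm
    rw [Int.abs_eq_natAbs]
    exact_mod_cast (by omega : j.natAbs ≤ k i)
  have h3 : Tendsto (fun i => pr (shS ((k i : ℤ) ^ 2 + k i) x1, t)) atTop (𝓝 (pr (s, t))) :=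
    (continuous_pr.tendsto _).comp (h2.prodMk_nhds tendsto_const_nhds)
  refine mem_closure_of_tendsto h3 ?_
  filter_upwards [eventually_ge_atTop ⌈b - t⌉₊] with i hi
  rw [pr_sh]
  refine ⟨_, ?_, rfl⟩
  have h4 : (⌈b - t⌉₊ : ℝ) ≤ k i := by exact_mod_cast hi.trans (hk i)
  have h5 := Nat.le_ceil (b - t)
  simp only [mem_Ici]
  push_cast
  nlinarith [sq_nonneg (k i : ℝ)]

/-- The constant word. -/
def z0 : SS := ⟨fun _ => iota (fun _ => false), Or.inl fun _ => rfl⟩

lemma mem_closure_Iic (a : ℝ) : pr (z0, 0) ∈ closure (hh '' Iic a) := by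
  have h2 : Tendsto (fun i : ℕ => shS (-(i : ℤ)) x1) atTop (𝓝 z0) := by
    rw [tendsto_subtype_rng, tendsto_pi_nhds]
    intro j
    refine tendsto_const_nhds.congr' ?_
    filter_upwards [eventually_ge_atTop (j.natAbs + 1)] with i hi
    exact (x0_neg (by omega)).symm
  have h3 : Tendsto (fun i : ℕ => pr (shS (-(i : ℤ)) x1, 0)) atTop (𝓝 (pr (z0, 0))) :=
    (continuous_pr.tendsto _).comp (h2.prodMk_nhds tendsto_const_nhds)
  refine mem_closure_of_tendsto h3 ?_
  filter_upwards [eventually_ge_atTop ⌈-a⌉₊] with i hi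
  rw [pr_sh]
  refine ⟨_, ?_, rfl⟩
  have h4 : (⌈-a⌉₊ : ℝ) ≤ i := by exact_mod_cast hi
  have h5 := Nat.le_ceil (-a)
  simp only [mem_Iic]
  push_cast
  linarith

lemma exists_hh_mem {B : Set XX} (hB : IsOpen B) (hne : B.Nonempty) : ∃ t, hh t ∈ B := by
  obtain ⟨x, hx⟩ := hne
  obtain ⟨⟨s, t⟩, rfl⟩ := pr_oq.surjective x
  rcases s.2 with hs | ⟨n, hn⟩
  · obtain ⟨_, h1, u, -, rfl⟩ := mem_closure_iff.mp (mem_closure_Ici hs t 0) B hB hx
    exact ⟨u, h1⟩
  · have : s = shS n x1 := Subtype.ext hn.symm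
    rw [this, pr_sh] at hx
    exact ⟨_, hx⟩

lemma hh_mem_iff {I : Set ℝ} {t : ℝ} : hh t ∈ hh '' I ↔ t ∈ I :=
  hh_injective.mem_set_image

/-- The cut at position `a`. -/
noncomputable def cutAt (a : ℝ) : Cut XX where
  C := closure (hh '' Iic a) ∪ closure (hh '' Ici (a + 3))
  M := hh '' Icc (a + 1) (a + 2)
  P := hh '' Ioo (a - 1) (a + 1)
  Q := hh '' Ioo (a + 2) (a + 4)
  p := hh a
  q := hh (a + 3)
  hC := IsPreconnected.union (pr (z0, 0)) (mem_closure_Iic a) (mem_closure_Ici (fun _ => rfl) 0 _)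
    (isPreconnected_Iic.image _ continuous_hh.continuousOn).closure
    (isPreconnected_Ici.image _ continuous_hh.continuousOn).closure
  hCc := isClosed_closure.union isClosed_closure
  hM := (isCompact_Icc.image continuous_hh).isClosed
  hMC := by
    have ho := isOpen_hh (isOpen_Ioo (a := a) (b := a + 3))
    refine Disjoint.mono_left (image_mono (Icc_subset_Ioo (by linarith) (by linarith) :
      Icc (a + 1) (a + 2) ⊆ Ioo a (a + 3))) (disjoint_union_right.mpr ⟨?_, ?_⟩)
    · refine Disjoint.closure_right (disjoint_image_of_injective hh_injective ?_) ho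
      exact disjoint_left.mpr fun t h1 h2 => absurd h1.1 (not_lt.mpr h2)
    · refine Disjoint.closure_right (disjoint_image_of_injective hh_injective ?_) ho
      exact disjoint_left.mpr fun t h1 h2 => absurd h1.2 (not_lt.mpr h2)
  hP := isOpen_hh isOpen_Ioo
  hQ := isOpen_hh isOpen_Ioo
  hp := ⟨a, ⟨by linarith, by linarith⟩, rfl⟩
  hq := ⟨a + 3, ⟨by linarith, by linarith⟩, rfl⟩
  hpC := Or.inl (subset_closure ⟨a, le_refl a, rfl⟩)
  hqC := Or.inr (subset_closure ⟨a + 3, le_refl (a + 3), rfl⟩)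

lemma cuts_at {B : Set XX} (hB : IsOpen B) {t : ℝ} (ht : hh t ∈ B) {a : ℝ}
    (ha : t ≤ a - 1 ∨ a + 4 ≤ t) : (cutAt a).Cuts B := by
  obtain ⟨η, hη, hball⟩ := Metric.isOpen_iff.mp (hB.preimage continuous_hh) t ht
  have hB' : ∀ s, t - η < s → s < t + η → hh s ∈ B := fun s h1 h2 =>
    hball (by rw [Metric.mem_ball, Real.dist_eq, abs_lt]; constructor <;> linarith)
  rcases ha with ha | ha
  · refine ⟨hh '' Icc t (a + 1), (hh '' Ioo (t - η) (a + 2))ᶜ,
      (isCompact_Icc.image continuous_hh).isClosed, (isOpen_hh isOpen_Ioo).isClosed_compl,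
      disjoint_compl_right_iff_subset.mpr (image_mono (Icc_subset_Ioo (by linarith) (by linarith))),
      image_mono (Ioo_subset_Icc_self.trans (Icc_subset_Icc ha le_rfl)), ?_, fun x => ?_⟩
    · rintro _ ⟨s, hs, rfl⟩ h
      exact absurd (hh_mem_iff.mp h).2 (not_lt.mpr hs.1.le)
    · by_cases hx : x ∈ hh '' Ioo (t - η) (a + 2)
      · obtain ⟨s, hs, rfl⟩ := hx
        rcases le_total s t with h | h
        · exact Or.inl (hB' s hs.1 (by linarith))
        rcases le_total s (a + 1) with h' | h'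
        · exact Or.inr (Or.inr (Or.inl ⟨s, ⟨h, h'⟩, rfl⟩))
        · exact Or.inr (Or.inl ⟨s, ⟨h', hs.2.le⟩, rfl⟩)
      · exact Or.inr (Or.inr (Or.inr hx))
  · refine ⟨(hh '' Ioo (a + 1) (t + η))ᶜ, hh '' Icc (a + 2) t,
      (isOpen_hh isOpen_Ioo).isClosed_compl, (isCompact_Icc.image continuous_hh).isClosed,
      disjoint_compl_left_iff_subset.mpr (image_mono (Icc_subset_Ioo (by linarith) (by linarith))),
      ?_, image_mono (Ioo_subset_Icc_self.trans (Icc_subset_Icc le_rfl ha)), fun x => ?_⟩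
    · rintro _ ⟨s, hs, rfl⟩ h
      exact absurd (hh_mem_iff.mp h).1 (not_lt.mpr hs.2.le)
    · by_cases hx : x ∈ hh '' Ioo (a + 1) (t + η)
      · obtain ⟨s, hs, rfl⟩ := hx
        rcases le_total t s with h | h
        · exact Or.inl (hB' s (by linarith) hs.2)
        rcases le_total (a + 2) s with h' | h'
        · exact Or.inr (Or.inr (Or.inr ⟨s, ⟨h', h⟩, rfl⟩))
        · exact Or.inr (Or.inl ⟨s, ⟨hs.1.le, h'⟩, rfl⟩)
      · exact Or.inr (Or.inr (Or.inl hx))

theorem strong_XX : StrongComputableType XX := by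
  refine strong_of_cuts (cutAt 0) (cutAt 10) fun B hB hne => ?_
  obtain ⟨t, ht⟩ := exists_hh_mem hB hne
  rcases le_total t 4 with h | h
  · exact Or.inr (cuts_at hB ht (Or.inl (by linarith)))
  · exact Or.inl (cuts_at hB ht (Or.inr (by linarith)))

/-- The self-embedding of the subshift. -/
def emb (s : SS) : SS := ⟨fun j => iota (s.1 j), Or.inl fun _ => rfl⟩

lemma continuous_emb : Continuous emb :=
  (continuous_pi fun j => continuous_iota.comp
    ((continuous_apply j).comp continuous_subtype_val)).subtype_mk _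

lemma emb_injective : Function.Injective emb := fun _ _ h =>
  Subtype.ext (funext fun j => iota_injective (congrFun (congrArg Subtype.val h) j))

/-- The self-embedding of the suspension. -/
noncomputable def embX : XX → XX :=
  Quotient.map (sa := AddAction.orbitRel ℤ Tot) (sb := AddAction.orbitRel ℤ Tot)
    (fun p => (emb p.1, p.2)) (by
      rintro p q ⟨n, rfl⟩
      exact ⟨n, rfl⟩)

lemma embX_pr (p : SS × ℝ) : embX (pr p) = pr (emb p.1, p.2) := rfl

lemma continuous_embX : Continuous embX := by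
  rw [pr_oq.isQuotientMap.continuous_iff]
  exact continuous_pr.comp ((continuous_emb.comp continuous_fst).prodMk continuous_snd)

lemma embX_injective : Function.Injective embX := by
  intro x y h
  obtain ⟨p, rfl⟩ := pr_oq.surjective x
  obtain ⟨q, rfl⟩ := pr_oq.surjective y
  rw [embX_pr, embX_pr] at h
  obtain ⟨n, hn⟩ := pr_eq_iff.mp h
  exact pr_eq_iff.mpr ⟨n, Prod.ext (emb_injective (Prod.mk.inj hn).1) (Prod.mk.inj hn).2⟩

theorem self_copy : ∃ X' : Set XX, X' ≠ univ ∧ Nonempty (X' ≃ₜ XX) := by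
  refine ⟨range embX, fun h => ?_,
    ⟨(continuous_embX.isClosedEmbedding embX_injective).isEmbedding.toHomeomorph.symm⟩⟩
  obtain ⟨x, hx⟩ : hh 0 ∈ range embX := h ▸ mem_univ _
  obtain ⟨p, rfl⟩ := pr_oq.surjective x
  rw [embX_pr] at hx
  obtain ⟨n, hn⟩ := pr_eq_iff.mp hx.symm
  have h1 : (shS n (emb p.1)).1 0 0 = x0 0 0 := congrArg (fun q : SS × ℝ => q.1.1 0 0) hn
  rw [(x0_true_iff 0).mpr rfl] at h1
  exact absurd h1 (by simp [shS, sh, emb, iota_zero])

theorem dim_XX : CovDimLE XX 1 := by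
  intro 𝓤 _ hopen hcov
  let _ : MetricSpace SS := TopologicalSpace.metrizableSpaceMetric SS
  obtain ⟨δ, hδ, hleb⟩ := lebesgue_number_lemma_of_metric
    (isCompact_univ.prod (isCompact_Icc (a := (0 : ℝ)) (b := 1)))
    (c := fun U : 𝓤 => pr ⁻¹' U.1) (fun U => (hopen U.1 U.2).preimage continuous_pr)
    (fun p _ => by
      obtain ⟨U, hU, hp⟩ := hcov (pr p)
      exact mem_iUnion.mpr ⟨⟨U, hU⟩, hp⟩)
  obtain ⟨N, g, c, hg, hgc⟩ := ContinuousMap.exists_finite_approximation_of_mem_nhds_diagonal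
    (ContinuousMap.id SS) (S := {p : SS × SS | dist p.1 p.2 < δ})
    ((isOpen_lt continuous_dist continuous_const).mem_nhdsSet.mpr (by
      rintro ⟨a, b⟩ (rfl : a = b)
      simpa using hδ))
  obtain ⟨m', hm'⟩ := exists_nat_one_div_lt hδ
  set m : ℕ := m' + 1 with hm
  have hm0 : (0 : ℝ) < m := by positivity
  have hmδ : 1 / (m : ℝ) < δ := by rw [hm]; push_cast; exact hm'
  let V : Fin N → ℤ → Set XX := fun k i =>
    pr '' ((g ⁻¹' {k}) ×ˢ Ioo (((i : ℝ) - 1) / m) (((i : ℝ) + 1) / m))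
  refine ⟨(fun p : Fin N × ℤ => V p.1 p.2) '' (univ ×ˢ Ico 0 (m : ℤ)),
    (finite_univ.prod (finite_Ico _ _)).image _, ?_, fun x => ?_, fun x => ?_⟩
  · rintro _ ⟨⟨k, i⟩, ⟨-, hi⟩, rfl⟩
    refine ⟨pr_oq.isOpenMap _ (((isOpen_discrete _).preimage hg).prod isOpen_Ioo), ?_⟩
    have hi1 : (0 : ℝ) ≤ i := by exact_mod_cast hi.1
    have hi2 : (i : ℝ) ≤ m := by exact_mod_cast hi.2.le
    obtain ⟨U, hU⟩ := hleb (c k, (i : ℝ) / m)
      ⟨trivial, by positivity, div_le_one_of_le₀ hi2 hm0.le⟩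
    refine ⟨U.1, U.2, ?_⟩
    rintro _ ⟨⟨s, t⟩, ⟨hs, ht⟩, rfl⟩
    refine hU ?_
    rw [← ball_prod_same]
    constructor
    · have := hgc s
      rw [show g s = k from hs] at this
      exact this
    · rw [Metric.mem_ball, Real.dist_eq, abs_lt]
      have h1 := ht.1
      have h2 := ht.2
      rw [sub_div] at h1
      rw [add_div] at h2
      constructor <;> linarith
  · obtain ⟨s, t, ht, rfl⟩ := exists_rep x
    refine ⟨_, ⟨(g s, ⌊t * m⌋), ⟨trivial, Int.floor_nonneg.mpr (mul_nonneg ht.1 hm0.le), ?_⟩, rfl⟩,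
      (s, t), ⟨rfl, ?_, ?_⟩, rfl⟩
    · rw [Int.floor_lt]
      push_cast
      nlinarith [ht.2]
    · rw [div_lt_iff₀ hm0]; linarith [Int.floor_le (t * m)]
    · rw [lt_div_iff₀ hm0]; exact Int.lt_floor_add_one _
  · obtain ⟨⟨s, t⟩, rfl⟩ := pr_oq.surjective x
    let F : ℤ → Set XX := fun j => V (g (shS (j / m) s)) (j % m)
    refine le_trans (ncard_le_ncard (t := {F ⌊t * m⌋, F (⌊t * m⌋ + 1)}) ?_ (toFinite _)) ?_
    · rintro _ ⟨⟨⟨k, i⟩, ⟨-, hi⟩, rfl⟩, ⟨s', t'⟩, ⟨hs, ht⟩, hpr⟩
      obtain ⟨n, hn⟩ := pr_eq_iff.mp hpr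
      obtain ⟨rfl, rfl⟩ := Prod.mk.inj hn
      simp only at hi hs ht
      have hmz : (0 : ℤ) < m := by exact_mod_cast hm0
      have hF : F (i + m * n) = V k i := by
        simp only [F]
        rw [Int.add_mul_ediv_left _ _ hmz.ne', Int.add_mul_emod_self_left,
          Int.ediv_eq_zero_of_lt hi.1 hi.2, Int.emod_eq_of_lt hi.1 hi.2, zero_add,
          show g (shS n s) = k from hs]
      have h1 := ht.1
      have h2 := ht.2
      rw [div_lt_iff₀ hm0] at h1
      rw [lt_div_iff₀ hm0] at h2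
      have h3 : ⌊t * m⌋ < i + m * n + 1 := by
        rw [Int.floor_lt]; push_cast; linarith
      have h4 : i + m * n - 1 ≤ ⌊t * m⌋ := by
        rw [Int.le_floor]; push_cast; linarith
      change V k i ∈ _
      rw [← hF]
      rcases (by omega : i + m * n = ⌊t * m⌋ ∨ i + m * n = ⌊t * m⌋ + 1) with h | h
      · rw [h]; exact Or.inl rfl
      · rw [h]; exact Or.inr rfl
    · exact (ncard_insert_le _ _).trans (by rw [ncard_singleton])

end Pool.Agent.Lib.MP_975a4b_lc
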